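import Pool.Agent.Helper61_Pauli.Moments

/-!
Module FOCK: polynomials in the field operators applied to the vacuum.
-/

open MeasureTheory Complex ProbabilityTheory

namespace Pool.Agent.Helper61_Pauli

open Pool.Agent.Helper49_Pauli

section

variable {ι : Type} [Fintype ι] [DecidableEq ι] {D : Type} [NormedAddCommGroup D]
  [InnerProductSpace ℂ D] (F : Bosons ι D)

omit [Fintype ι] in
lemma adj' (m : ι) (u v : D) : inner ℂ (F.a m u) v = inner ℂ u (F.ad m v) := by
  rw [← inner_conj_symm u, F.adj, inner_conj_symm]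

omit [Fintype ι] in
lemma ad_comm (m n : ι) (v : D) : F.ad m (F.ad n v) = F.ad n (F.ad m v) := by
  refine ext_inner_right ℂ fun w => ?_
  rw [F.adj, F.adj, F.adj, F.adj, F.ccr']

/-- field operator -/
noncomputable def fld (i : ι) : Module.End ℂ D := F.a i + F.ad i

omit [Fintype ι] in
lemma fld_apply (i : ι) (v : D) : fld F i v = F.a i v + F.ad i v := rfl

omit [Fintype ι] in
lemma a_ad (m n : ι) (v : D) : F.a m (F.ad n v) = F.ad n (F.a m v) + if m = n then v else 0 := by
  rw [← F.ccr m n v]; abel

omit [Fintype ι] in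
lemma fld_comm (i j : ι) : fld F i * fld F j = fld F j * fld F i := by
  ext v
  rw [Module.End.mul_apply, Module.End.mul_apply]
  simp only [fld_apply, map_add]
  rw [F.ccr' i j v, ad_comm F i j v, a_ad F i j v, a_ad F j i v]
  by_cases h : i = j
  · subst h; abel
  · rw [if_neg h, if_neg (Ne.symm h)]; abel

omit [Fintype ι] in
lemma comm_set : ∀ a ∈ Set.range (fld F), ∀ b ∈ Set.range (fld F), a * b = b * a := by
  rintro _ ⟨i, rfl⟩ _ ⟨j, rfl⟩
  exact fld_comm F i j

/-- polynomials of the field operators -/
noncomputable def opHom : MvPolynomial ι ℂ →ₐ[ℂ] Module.End ℂ D :=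
  letI := Algebra.adjoinCommRingOfComm ℂ (comm_set F)
  (Algebra.adjoin ℂ (Set.range (fld F))).val.comp
    (MvPolynomial.aeval (R := ℂ) (S₁ := Algebra.adjoin ℂ (Set.range (fld F)))
      (fun i => ⟨fld F i, Algebra.subset_adjoin ⟨i, rfl⟩⟩))

omit [Fintype ι] in
lemma opHom_X (i : ι) : opHom F (MvPolynomial.X i) = fld F i := by
  unfold opHom
  simp

/-- polynomials of the field operators, applied to the vacuum -/
noncomputable def JJ : MvPolynomial ι ℂ →ₗ[ℂ] D where
  toFun P := opHom F P F.vac
  map_add' p q := by rw [map_add]; rfl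
  map_smul' c p := by rw [map_smul]; rfl

omit [Fintype ι] in
lemma JJ_one : JJ F 1 = F.vac := by
  change opHom F 1 F.vac = _
  rw [map_one]
  rfl

omit [Fintype ι] in
lemma JJ_X (i : ι) (P : MvPolynomial ι ℂ) :
    JJ F (MvPolynomial.X i * P) = F.a i (JJ F P) + F.ad i (JJ F P) := by
  change opHom F (MvPolynomial.X i * P) F.vac = _
  rw [map_mul, opHom_X, Module.End.mul_apply]
  rfl

omit [Fintype ι] in
lemma JJ_C (c : ℂ) : JJ F (MvPolynomial.C c) = c • F.vac := by
  have : (MvPolynomial.C c : MvPolynomial ι ℂ) = c • 1 := by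
    rw [MvPolynomial.smul_eq_C_mul, mul_one]
  rw [this, map_smul, JJ_one]

omit [Fintype ι] in
lemma a_JJ (i : ι) (P : MvPolynomial ι ℂ) : F.a i (JJ F P) = JJ F (MvPolynomial.pderiv i P) := by
  induction P using MvPolynomial.induction_on with
  | C c => rw [JJ_C, map_smul, F.a_vac, smul_zero, MvPolynomial.pderiv_C, map_zero]
  | add p q hp hq => rw [map_add, map_add, map_add, map_add, hp, hq]
  | mul_X p j hp =>
    rw [mul_comm p, JJ_X, map_add, F.ccr' i j, a_ad F i j, hp, Derivation.leibniz, map_add,
      MvPolynomial.pderiv_X, smul_eq_mul, smul_eq_mul, JJ_X]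
    by_cases h : i = j
    · subst h
      simp only [if_true, Pi.single_eq_same, mul_one]
      abel
    · simp [h, Ne.symm h]

end

section

variable {ι : Type} [Fintype ι] [DecidableEq ι] {D : Type} [NormedAddCommGroup D]
  [InnerProductSpace ℂ D] (F : Bosons ι D)

lemma vac_JJ : ∀ (n : ℕ) (P : MvPolynomial ι ℂ), P.totalDegree ≤ n →
    inner ℂ F.vac (JJ F P) = EE P := by
  intro n
  induction n using Nat.strong_induction_on with
  | _ n ih =>
    intro P hP
    -- decompose into monomials
    have hmon : ∀ (s : ι →₀ ℕ) (c : ℂ), s.sum (fun _ e => e) ≤ n →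
        inner ℂ F.vac (JJ F (MvPolynomial.monomial s c)) = EE (MvPolynomial.monomial s c) := by
      intro s c hs
      by_cases h0 : s = 0
      · subst h0
        change inner ℂ F.vac (JJ F (MvPolynomial.C c)) = EE (MvPolynomial.C c)
        rw [JJ_C, EE_C, inner_smul_right, inner_self_eq_norm_sq_to_K, F.norm_vac]
        simp
      · obtain ⟨i, hi⟩ := Finsupp.ne_iff.1 h0
        have hi' : 1 ≤ s i := Nat.one_le_iff_ne_zero.2 hi
        have hsum : s.sum (fun _ e => e) = ∑ j, s j := Finsupp.sum_fintype _ _ (fun _ => rfl)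
        have hsplit : MvPolynomial.monomial s c
            = MvPolynomial.X i * MvPolynomial.monomial (s - Finsupp.single i 1) c := by
          rw [MvPolynomial.X, MvPolynomial.monomial_mul, one_mul]
          congr 1
          rw [add_comm, tsub_add_cancel_of_le]
          rwa [Finsupp.single_le_iff]
        rw [hsplit, JJ_X, inner_add_right, a_JJ, ← adj', F.a_vac, inner_zero_left, add_zero,
          stein]
        have hlt : (MvPolynomial.pderiv i
            (MvPolynomial.monomial (s - Finsupp.single i 1) c)).totalDegree < n := by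
          rw [MvPolynomial.pderiv_monomial]
          refine lt_of_le_of_lt (MvPolynomial.totalDegree_monomial_le _ _) ?_
          have h1 : (s - Finsupp.single i 1 - Finsupp.single i 1 : ι →₀ ℕ).sum (fun _ e => e)
              = ∑ j, (s - Finsupp.single i 1 - Finsupp.single i 1 : ι →₀ ℕ) j :=
            Finsupp.sum_fintype _ _ (fun _ => rfl)
          refine lt_of_eq_of_lt h1 ?_
          refine lt_of_lt_of_le ?_ (hsum ▸ hs)
          refine Finset.sum_lt_sum (fun j _ => ?_) ⟨i, Finset.mem_univ i, ?_⟩
          · rw [Finsupp.tsub_apply, Finsupp.tsub_apply]; omega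
          · rw [Finsupp.tsub_apply, Finsupp.tsub_apply, Finsupp.single_eq_same]; omega
        exact ih _ hlt _ le_rfl
    have hdec := P.support_sum_monomial_coeff
    have h1 : inner ℂ F.vac (JJ F P)
        = ∑ s ∈ P.support, inner ℂ F.vac (JJ F (MvPolynomial.monomial s (P.coeff s))) := by
      conv_lhs => rw [← hdec]
      rw [map_sum, inner_sum]
    have h2 : EE P = ∑ s ∈ P.support, EE (MvPolynomial.monomial s (P.coeff s)) := by
      have hE : ∀ (t : Finset (ι →₀ ℕ)), EE (∑ s ∈ t, MvPolynomial.monomial s (P.coeff s))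
          = ∑ s ∈ t, EE (MvPolynomial.monomial s (P.coeff s)) := by
        intro t
        induction t using Finset.induction_on with
        | empty =>
          rw [Finset.sum_empty, Finset.sum_empty, ← MvPolynomial.C_0, EE_C]
        | insert s t hs iht => rw [Finset.sum_insert hs, Finset.sum_insert hs, EE_add, iht]
      conv_lhs => rw [← hdec]
      exact hE _
    rw [h1, h2]
    refine Finset.sum_congr rfl fun s hs => hmon s _ ?_
    exact (MvPolynomial.le_totalDegree hs).trans hP

/-- conjugation of coefficients -/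
noncomputable def cj : MvPolynomial ι ℂ →+* MvPolynomial ι ℂ := MvPolynomial.map (starRingEnd ℂ)

lemma ev_cj (P : MvPolynomial ι ℂ) (y : EuclideanSpace ℝ ι) :
    ev (cj P) y = (starRingEnd ℂ) (ev P y) := by
  unfold ev cj
  induction P using MvPolynomial.induction_on with
  | C c => simp
  | add p q hp hq => rw [map_add, map_add, map_add, map_add, hp, hq]
  | mul_X p j hp => rw [map_mul, map_mul, map_mul, map_mul, hp]; simp

lemma inner_JJ (P Q : MvPolynomial ι ℂ) : inner ℂ (JJ F P) (JJ F Q) = EE (cj P * Q) := by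
  induction P using MvPolynomial.induction_on generalizing Q with
  | C c =>
    rw [JJ_C, inner_smul_left, vac_JJ F _ Q le_rfl]
    have h1 : cj (MvPolynomial.C c : MvPolynomial ι ℂ) = MvPolynomial.C ((starRingEnd ℂ) c) := by
      unfold cj; rw [MvPolynomial.map_C]
    rw [h1]
    unfold EE
    rw [← integral_const_mul]
    refine integral_congr_ae (Filter.Eventually.of_forall fun y => ?_)
    unfold ev
    simp
  | add p q hp hq => rw [map_add, inner_add_left, hp, hq, map_add, add_mul, EE_add]
  | mul_X p j hp =>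
    rw [mul_comm p, JJ_X, inner_add_left, adj', F.adj, ← inner_add_right, add_comm, ← JJ_X, hp]
    congr 1
    rw [map_mul]
    have h1 : cj (MvPolynomial.X j : MvPolynomial ι ℂ) = MvPolynomial.X j := by
      unfold cj; rw [MvPolynomial.map_X]
    rw [h1]
    ring

end

/-- Module FOCK. -/
theorem fock : FockStatement := by
  intro ι _ _ D _ _ F
  refine ⟨JJ F, JJ_one F, JJ_X F, a_JJ F, fun P Q => ?_⟩
  rw [inner_JJ]
  unfold EE
  refine integral_congr_ae (Filter.Eventually.of_forall fun y => ?_)
  have h1 : ev (cj P * Q) y = ev (cj P) y * ev Q y := by unfold ev; rw [map_mul]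
  simp only
  rw [h1, ev_cj]
  rfl

end Pool.Agent.Helper61_Pauli
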