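import Pool.Agent.Helper61_Pauli.Moments

/-!
Module GAUSS, change of variables.
-/

open MeasureTheory Complex ProbabilityTheory

namespace Pool.Agent.Helper61_Pauli

open Pool.Agent.Helper49_Pauli

variable {ι : Type} [Fintype ι]

/-- density of the product Gaussian -/
noncomputable def gd (x : ι → ℝ) : ℝ :=
  (Real.sqrt (2 * Real.pi))⁻¹ ^ Fintype.card ι * Real.exp (-(1 / 2) * ∑ i, x i ^ 2)

lemma gd_nonneg (x : ι → ℝ) : 0 ≤ gd x := by
  unfold gd
  positivity

lemma prod_pdf (x : ι → ℝ) : ∏ i, gaussianPDFReal 0 1 (x i) = gd x := by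
  unfold gd
  simp only [pdf_eq]
  rw [Finset.prod_mul_distrib, Finset.prod_const, Finset.card_univ, ← Real.exp_sum,
    Finset.mul_sum]

lemma measurable_gd : Measurable (gd : (ι → ℝ) → ℝ) := by
  unfold gd
  fun_prop

lemma pi_gauss : Measure.pi (fun _ : ι => gaussianReal 0 1)
    = (volume : Measure (ι → ℝ)).withDensity (fun x => ENNReal.ofReal (gd x)) := by
  classical
  apply Measure.pi_eq
  intro s hs
  rw [withDensity_apply _ (MeasurableSet.univ_pi hs), ← lintegral_indicator
    (MeasurableSet.univ_pi hs)]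
  have h1 : ∀ x : ι → ℝ, (Set.univ.pi s).indicator (fun x => ENNReal.ofReal (gd x)) x
      = ENNReal.ofReal (∏ i, (s i).indicator (gaussianPDFReal 0 1) (x i)) := by
    intro x
    by_cases hx : x ∈ Set.univ.pi s
    · rw [Set.indicator_of_mem hx, ← prod_pdf]
      congr 1
      refine Finset.prod_congr rfl fun i _ => ?_
      rw [Set.indicator_of_mem (hx i (Set.mem_univ i))]
    · rw [Set.indicator_of_notMem hx]
      rw [Set.mem_univ_pi] at hx
      push Not at hx
      obtain ⟨i, hi⟩ := hx
      rw [Finset.prod_eq_zero (Finset.mem_univ i) (Set.indicator_of_notMem hi _),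
        ENNReal.ofReal_zero]
  simp only [h1]
  have hint : ∀ i, Integrable ((s i).indicator (gaussianPDFReal 0 1)) volume := fun i =>
    (integrable_gaussianPDFReal 0 1).indicator (hs i)
  have hnn : ∀ i x, 0 ≤ (s i).indicator (gaussianPDFReal 0 1) x := fun i x =>
    Set.indicator_nonneg (fun y _ => gaussianPDFReal_nonneg _ _ _) x
  have hprod : Integrable (fun x : ι → ℝ => ∏ i, (s i).indicator (gaussianPDFReal 0 1) (x i))
      volume := Integrable.fintype_prod hint
  rw [← ofReal_integral_eq_lintegral_ofReal hprod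
    (Filter.Eventually.of_forall fun x => Finset.prod_nonneg fun i _ => hnn i _),
    integral_fintype_prod_volume_eq_prod
      (f := fun i x => (s i).indicator (gaussianPDFReal 0 1) x),
    ENNReal.ofReal_prod_of_nonneg (fun i _ => integral_nonneg (hnn i))]
  refine Finset.prod_congr rfl fun i _ => ?_
  rw [gaussianReal_apply_eq_integral 0 one_ne_zero, integral_indicator (hs i)]

/-- integrals against the standard Gaussian as Lebesgue integrals -/
lemma lintegral_std {H : (ι → ℝ) → ENNReal} (hH : Measurable H) :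
    ∫⁻ y, H (fun i => y i) ∂stdGaussian (EuclideanSpace ℝ ι)
      = ∫⁻ x : ι → ℝ, ENNReal.ofReal (gd x) * H x := by
  have hHm : Measurable fun y : EuclideanSpace ℝ ι => H (fun i => y i) := by
    refine hH.comp ?_
    fun_prop
  rw [← map_pi_eq_stdGaussian, lintegral_map hHm (by fun_prop), pi_gauss,
    lintegral_withDensity_eq_lintegral_mul _ measurable_gd.ennreal_ofReal (by
      exact hHm.comp (by fun_prop))]
  rfl

/-- a linear change of variables -/
lemma lintegral_lin_change (T : (ι → ℝ) →ₗ[ℝ] (ι → ℝ)) (hT : LinearMap.det T ≠ 0)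
    {F : (ι → ℝ) → ENNReal} (hF : Measurable F) :
    ∫⁻ u, F u = ENNReal.ofReal |LinearMap.det T| * ∫⁻ z, F (T z) := by
  have hTm : Measurable T := (LinearMap.toContinuousLinearMap T).continuous.measurable
  have h1 : ∫⁻ z, F (T z) = ∫⁻ u, F u ∂(Measure.map T volume) := by
    rw [lintegral_map hF hTm]
  rw [h1, Measure.map_linearMap_addHaar_eq_smul_addHaar volume hT, lintegral_smul_measure,
    smul_eq_mul, ← mul_assoc, ← ENNReal.ofReal_mul (abs_nonneg _), ← abs_mul,
    mul_inv_cancel₀ hT, abs_one, ENNReal.ofReal_one, one_mul]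

/-- the linear map `(1 + K)^(-1/2)` -/
lemma exists_sqrt (K : ι → ι → ℝ) (hK : ∀ i j, K i j = K j i) (hpos : ∀ y, 0 ≤ quad K y) :
    ∃ T : (ι → ℝ) →ₗ[ℝ] (ι → ℝ), LinearMap.det T ≠ 0 ∧
      ∀ z, ∑ i, T z i ^ 2 + quad K (T z) = ∑ i, z i ^ 2 := by
  classical
  set A : Matrix ι ι ℝ := 1 + Matrix.of K with hA
  have hquad : ∀ y : ι → ℝ, dotProduct y (A.mulVec y) = ∑ i, y i ^ 2 + quad K y := by
    intro y
    rw [hA, Matrix.add_mulVec, Matrix.one_mulVec, dotProduct_add]
    congr 1
    · simp only [dotProduct, pow_two]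
    · unfold quad
      simp only [dotProduct, Matrix.mulVec, Matrix.of_apply]
      refine Finset.sum_congr rfl fun i _ => ?_
      rw [Finset.mul_sum]
      refine Finset.sum_congr rfl fun j _ => ?_
      ring
  have hherm : A.IsHermitian := by
    rw [hA]
    refine Matrix.IsHermitian.add Matrix.isHermitian_one ?_
    ext i j
    simp [Matrix.conjTranspose_apply, hK i j]
  have hpd : A.PosDef := by
    refine Matrix.PosDef.of_dotProduct_mulVec_pos hherm fun x hx => ?_
    rw [star_trivial, hquad]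
    have h1 : 0 < ∑ i, x i ^ 2 := by
      obtain ⟨i, hi⟩ := Function.ne_iff.1 hx
      refine Finset.sum_pos' (fun j _ => sq_nonneg _) ⟨i, Finset.mem_univ i, ?_⟩
      exact pow_pos (abs_pos.2 hi) 2 |>.trans_le (by rw [sq_abs])
    have := hpos x
    linarith
  obtain ⟨B, hB⟩ : ∃ B : Matrix ι ι ℝ, A = star B * B := by
    open scoped MatrixOrder in
    exact CStarAlgebra.nonneg_iff_eq_star_mul_self.mp hpd.posSemidef.nonneg
  have hBdet : B.det ≠ 0 := by
    intro h0
    have h1 := hpd.det_pos
    rw [hB, Matrix.det_mul, h0, mul_zero] at h1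
    exact lt_irrefl _ h1
  have hBu : IsUnit B.det := isUnit_iff_ne_zero.2 hBdet
  refine ⟨Matrix.toLin' B⁻¹, ?_, ?_⟩
  · rw [LinearMap.det_toLin']
    rw [Matrix.det_nonsing_inv]
    exact (hBu.ringInverse).ne_zero
  · intro z
    rw [← hquad]
    have h1 : B.mulVec (Matrix.toLin' B⁻¹ z) = z := by
      rw [Matrix.toLin'_apply, Matrix.mulVec_mulVec, Matrix.mul_nonsing_inv _ hBu,
        Matrix.one_mulVec]
    rw [hB, ← Matrix.mulVec_mulVec, h1, Matrix.dotProduct_mulVec]
    have h2 : Matrix.vecMul (Matrix.toLin' B⁻¹ z) (star B) = z := by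
      rw [Matrix.star_eq_conjTranspose, Matrix.conjTranspose_eq_transpose_of_trivial,
        Matrix.vecMul_transpose, h1]
    rw [h2]
    simp only [dotProduct, pow_two]

/-- completing the square -/
lemma gd_squeezed (K : ι → ι → ℝ) (η u : ι → ℝ) :
    gd (fun i => η i + u i) * squeezed K η (fun i => η i + u i) ^ 2
      = Real.exp ((∑ i, η i ^ 2) / 2) * ((Real.sqrt (2 * Real.pi))⁻¹ ^ Fintype.card ι
        * Real.exp (-(1 / 2) * (∑ i, u i ^ 2 + quad K u))) := by
  unfold gd squeezed
  rw [← Real.exp_nat_mul, mul_assoc, ← Real.exp_add, mul_left_comm, ← Real.exp_add]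
  congr 2
  have h1 : ∀ i, (η i + u i) - η i = u i := fun i => by ring
  simp only [h1]
  have h2 : ∑ i, (η i + u i) ^ 2 = ∑ i, η i ^ 2 + 2 * ∑ i, u i * η i + ∑ i, u i ^ 2 := by
    rw [Finset.mul_sum, ← Finset.sum_add_distrib, ← Finset.sum_add_distrib]
    refine Finset.sum_congr rfl fun i _ => ?_
    ring
  have h3 : ∑ i, (η i + u i) * η i = ∑ i, η i ^ 2 + ∑ i, u i * η i := by
    rw [← Finset.sum_add_distrib]
    refine Finset.sum_congr rfl fun i _ => ?_
    ring
  rw [h2, h3]
  push_cast
  ring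

lemma measurable_squeezed (K : ι → ι → ℝ) (η : ι → ℝ) : Measurable (squeezed K η) := by
  unfold squeezed quad
  fun_prop

/-- Module GAUSS, change of variables. -/
theorem gaussChange : GaussChangeStatement := by
  intro ι _ K η hK hpos
  obtain ⟨T, hT, hTq⟩ := exists_sqrt K hK hpos
  set E := WithLp.linearEquiv 2 ℝ (ι → ℝ) with hE
  have hsq : ∀ z : EuclideanSpace ℝ ι, ‖z‖ ^ 2 = ∑ i, z i ^ 2 := fun z => by
    rw [EuclideanSpace.real_norm_sq_eq]
  refine ⟨E.symm.toLinearMap ∘ₗ T ∘ₗ E.toLinearMap,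
    |LinearMap.det T| * Real.exp ((∑ i, η i ^ 2) / 2),
    mul_pos (abs_pos.2 hT) (Real.exp_pos _), ?_, ?_⟩
  · intro z
    rw [hsq, hsq]
    exact hTq (E z)
  · intro G hG
    have hTm : Measurable T := (LinearMap.toContinuousLinearMap T).continuous.measurable
    have hsm := measurable_squeezed K η
    have hL := lintegral_std (ι := ι)
      (H := fun x => ENNReal.ofReal (squeezed K η x ^ 2) * G x) (by fun_prop)
    have hR := lintegral_std (ι := ι) (H := fun z => G (fun i => η i + T z i)) (by
      refine hG.comp ?_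
      fun_prop)
    have hgm := measurable_gd (ι := ι)
    refine hL.trans ?_
    refine Eq.trans ?_ (congrArg _ hR.symm)
    rw [← lintegral_add_left_eq_self _ η]
    have h1 : ∀ u : ι → ℝ, ENNReal.ofReal (gd (η + u)) *
        (ENNReal.ofReal (squeezed K η (η + u) ^ 2) * G (η + u))
        = ENNReal.ofReal (Real.exp ((∑ i, η i ^ 2) / 2)) *
          (ENNReal.ofReal ((Real.sqrt (2 * Real.pi))⁻¹ ^ Fintype.card ι
        * Real.exp (-(1 / 2) * (∑ i, u i ^ 2 + quad K u))) * G (η + u)) := by
      intro u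
      rw [← mul_assoc, ← mul_assoc, ← ENNReal.ofReal_mul (gd_nonneg _),
        ← ENNReal.ofReal_mul (Real.exp_pos _).le]
      congr 2
      exact gd_squeezed K η u
    simp only [h1]
    have hqm : Measurable (quad K : (ι → ℝ) → ℝ) := by
      unfold quad
      fun_prop
    have hGa : Measurable fun u : ι → ℝ => G (η + u) := hG.comp (by fun_prop)
    rw [lintegral_const_mul _ (by fun_prop), lintegral_lin_change T hT (by fun_prop), ← mul_assoc,
      mul_comm (|LinearMap.det T|), ENNReal.ofReal_mul (Real.exp_pos _).le]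
    congr 1
    refine lintegral_congr fun z => ?_
    rw [hTq z]
    rfl

end Pool.Agent.Helper61_Pauli
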