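import Pool.Agent.Helper61_Pauli.Moments

/-!
Module GAUSS, moments.
-/

open MeasureTheory Complex ProbabilityTheory

namespace Pool.Agent.Helper61_Pauli

open Pool.Agent.Helper49_Pauli

lemma rm_zero : rm 0 = 1 := by
  unfold rm
  simp

lemma rm_two : rm 2 = 1 := by
  have := rm_succ 1
  norm_num at this
  rw [this, rm_zero]

lemma rm_four : rm 4 = 3 := by
  have := rm_succ 3
  norm_num at this
  rw [this, rm_two, mul_one]

/-- moments of a centred Gaussian -/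
lemma lintegral_pow_gaussian (s : ℝ) (v : NNReal) (hv : (v : ℝ) = s ^ 2) (n : ℕ) (hn : Even n) :
    ∫⁻ x, ENNReal.ofReal (x ^ n) ∂gaussianReal 0 v = ENNReal.ofReal (s ^ n * rm n) := by
  have h1 : gaussianReal 0 v = (gaussianReal 0 1).map (s * ·) := by
    rw [gaussianReal_map_const_mul]
    congr 1
    · simp
    · ext
      simp [hv]
  rw [h1, lintegral_map (by fun_prop) (by fun_prop)]
  have h2 : ∀ x : ℝ, (s * x) ^ n = s ^ n * x ^ n := fun x => mul_pow s x n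
  simp only [h2]
  rw [← ofReal_integral_eq_lintegral_ofReal ((integrable_pow_gauss n).const_mul _)
    (Filter.Eventually.of_forall fun x => mul_nonneg (hn.pow_nonneg s) (hn.pow_nonneg x)),
    integral_const_mul]
  rfl

variable {ι : Type} [Fintype ι]

/-- moments of a linear functional -/
lemma lintegral_lin (l : EuclideanSpace ℝ ι →ₗ[ℝ] ℝ) (β : ℝ) (hβ : 0 ≤ β)
    (h : ∀ z, l z ^ 2 ≤ β * ‖z‖ ^ 2) :
    ∃ v : ℝ, 0 ≤ v ∧ v ≤ β ∧
      (∫⁻ z, ENNReal.ofReal (l z ^ 2) ∂stdGaussian (EuclideanSpace ℝ ι) = ENNReal.ofReal v) ∧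
      (∫⁻ z, ENNReal.ofReal (l z ^ 4) ∂stdGaussian (EuclideanSpace ℝ ι)
        = ENNReal.ofReal (3 * v ^ 2)) := by
  set L : StrongDual ℝ (EuclideanSpace ℝ ι) := LinearMap.toContinuousLinearMap l with hL
  have hLl : ∀ z, L z = l z := fun z => rfl
  have hnorm : ‖L‖ ≤ Real.sqrt β := by
    refine L.opNorm_le_bound (Real.sqrt_nonneg _) fun z => ?_
    rw [hLl, Real.norm_eq_abs, ← Real.sqrt_sq (norm_nonneg z), ← Real.sqrt_mul hβ]
    exact Real.abs_le_sqrt (h z)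
  have hmap : (stdGaussian (EuclideanSpace ℝ ι)).map L = gaussianReal 0 (‖L‖ ^ 2).toNNReal := by
    rw [IsGaussian.map_eq_gaussianReal, integral_strongDual_stdGaussian, variance_dual_stdGaussian]
  have hv : (((‖L‖ ^ 2).toNNReal : NNReal) : ℝ) = ‖L‖ ^ 2 :=
    Real.coe_toNNReal _ (sq_nonneg _)
  refine ⟨‖L‖ ^ 2, sq_nonneg _, ?_, ?_, ?_⟩
  · calc ‖L‖ ^ 2 ≤ (Real.sqrt β) ^ 2 := pow_le_pow_left₀ (norm_nonneg _) hnorm 2
      _ = β := Real.sq_sqrt hβ
  · have h1 := lintegral_pow_gaussian ‖L‖ _ hv 2 (by decide)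
    rw [← hmap, lintegral_map (by fun_prop) (by fun_prop), rm_two, mul_one] at h1
    exact h1
  · have h1 := lintegral_pow_gaussian ‖L‖ _ hv 4 (by decide)
    rw [← hmap, lintegral_map (by fun_prop) (by fun_prop), rm_four] at h1
    have h2 : 3 * (‖L‖ ^ 2) ^ 2 = ‖L‖ ^ 4 * 3 := by ring
    rw [h2]
    exact h1

/-- Module GAUSS, moments. -/
theorem gaussMoment : GaussMomentStatement := by
  intro ι _ l₁ l₂ β₁ β₂ hβ₁ hβ₂ h₁ h₂
  obtain ⟨v₁, hv₁, hv₁', e₁, f₁⟩ := lintegral_lin l₁ β₁ hβ₁ h₁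
  obtain ⟨v₂, hv₂, hv₂', e₂, f₂⟩ := lintegral_lin l₂ β₂ hβ₂ h₂
  refine ⟨?_, ?_, ?_⟩
  · exact integral_strongDual_stdGaussian (LinearMap.toContinuousLinearMap l₁)
  · rw [e₁]
    exact ENNReal.ofReal_le_ofReal hv₁'
  · rcases hβ₁.eq_or_lt with hb | hb
    · have h0 : ∀ z, l₁ z = 0 := by
        intro z
        have := h₁ z
        rw [← hb, zero_mul] at this
        exact pow_eq_zero_iff two_ne_zero |>.1 (le_antisymm this (sq_nonneg _))
      simp [h0]
    rcases hβ₂.eq_or_lt with hb' | hb'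
    · have h0 : ∀ z, l₂ z = 0 := by
        intro z
        have := h₂ z
        rw [← hb', zero_mul] at this
        exact pow_eq_zero_iff two_ne_zero |>.1 (le_antisymm this (sq_nonneg _))
      simp [h0]
    have hm₁ : Measurable fun z => l₁ z :=
      (LinearMap.toContinuousLinearMap l₁).continuous.measurable
    have hm₂ : Measurable fun z => l₂ z :=
      (LinearMap.toContinuousLinearMap l₂).continuous.measurable
    have key : ∀ z, ENNReal.ofReal (l₁ z ^ 2 * l₂ z ^ 2)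
        ≤ ENNReal.ofReal (β₂ / (2 * β₁)) * ENNReal.ofReal (l₁ z ^ 4)
          + ENNReal.ofReal (β₁ / (2 * β₂)) * ENNReal.ofReal (l₂ z ^ 4) := by
      intro z
      rw [← ENNReal.ofReal_mul (by positivity), ← ENNReal.ofReal_mul (by positivity),
        ← ENNReal.ofReal_add (by positivity) (by positivity)]
      apply ENNReal.ofReal_le_ofReal
      have e : β₂ / (2 * β₁) * l₁ z ^ 4 + β₁ / (2 * β₂) * l₂ z ^ 4 - l₁ z ^ 2 * l₂ z ^ 2
          = (β₂ * l₁ z ^ 2 - β₁ * l₂ z ^ 2) ^ 2 / (2 * β₁ * β₂) := by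
        field_simp
        ring
      have : 0 ≤ (β₂ * l₁ z ^ 2 - β₁ * l₂ z ^ 2) ^ 2 / (2 * β₁ * β₂) := by positivity
      linarith
    refine (lintegral_mono key).trans ?_
    rw [lintegral_add_left (by fun_prop), lintegral_const_mul _ (by fun_prop),
      lintegral_const_mul _ (by fun_prop), f₁, f₂, ← ENNReal.ofReal_mul (by positivity),
      ← ENNReal.ofReal_mul (by positivity), ← ENNReal.ofReal_add (by positivity) (by positivity)]
    apply ENNReal.ofReal_le_ofReal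
    have g₁ : v₁ ^ 2 ≤ β₁ ^ 2 := pow_le_pow_left₀ hv₁ hv₁' 2
    have g₂ : v₂ ^ 2 ≤ β₂ ^ 2 := pow_le_pow_left₀ hv₂ hv₂' 2
    have k₁ : β₂ / (2 * β₁) * (3 * v₁ ^ 2) ≤ β₂ / (2 * β₁) * (3 * β₁ ^ 2) :=
      mul_le_mul_of_nonneg_left (by linarith) (by positivity)
    have k₂ : β₁ / (2 * β₂) * (3 * v₂ ^ 2) ≤ β₁ / (2 * β₂) * (3 * β₂ ^ 2) :=
      mul_le_mul_of_nonneg_left (by linarith) (by positivity)
    have k₃ : β₂ / (2 * β₁) * (3 * β₁ ^ 2) + β₁ / (2 * β₂) * (3 * β₂ ^ 2) = 3 * β₁ * β₂ := by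
      field_simp
      ring
    linarith

end Pool.Agent.Helper61_Pauli
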