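import Pool.Agent.Helper49_Pauli.Interface

/-!
Moments of the standard Gaussian measure and Gaussian integration by parts for polynomials.
-/

open MeasureTheory Complex ProbabilityTheory

namespace Pool.Agent.Helper61_Pauli

open Pool.Agent.Helper49_Pauli

lemma pdf_eq (x : ℝ) : gaussianPDFReal 0 1 x
    = (Real.sqrt (2 * Real.pi))⁻¹ * Real.exp (-(1 / 2) * x ^ 2) := by
  unfold gaussianPDFReal
  simp only [NNReal.coe_one, mul_one, sub_zero]
  congr 2
  ring

lemma hasDerivAt_pdf (x : ℝ) :
    HasDerivAt (fun y => -gaussianPDFReal 0 1 y) (x * gaussianPDFReal 0 1 x) x := by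
  have h1 : HasDerivAt (fun y : ℝ => -(1 / 2) * y ^ 2) (-x) x := by
    have h0 := (hasDerivAt_pow 2 x).const_mul (-(1 / 2 : ℝ))
    have e0 : -(1 / 2 : ℝ) * (((2 : ℕ) : ℝ) * x ^ (2 - 1)) = -x := by norm_num; ring
    rw [e0] at h0
    exact h0
  have h2 := (h1.exp.const_mul ((Real.sqrt (2 * Real.pi))⁻¹)).neg
  have e : (fun y => -gaussianPDFReal 0 1 y)
      = fun y => -((Real.sqrt (2 * Real.pi))⁻¹ * Real.exp (-(1 / 2) * y ^ 2)) := by
    funext y
    rw [pdf_eq]
  rw [e, pdf_eq]
  have e1 : x * ((Real.sqrt (2 * Real.pi))⁻¹ * Real.exp (-(1 / 2) * x ^ 2))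
      = -((Real.sqrt (2 * Real.pi))⁻¹ * (Real.exp (-(1 / 2) * x ^ 2) * -x)) := by ring
  rw [e1]
  exact h2

lemma integrable_pow_pdf (n : ℕ) :
    Integrable (fun x : ℝ => x ^ n * gaussianPDFReal 0 1 x) := by
  have h := integrable_rpow_mul_exp_neg_mul_sq (b := 1 / 2) (by norm_num) (s := (n : ℝ))
    (by have : (0 : ℝ) ≤ n := Nat.cast_nonneg n
        linarith)
  have h2 := h.const_mul ((Real.sqrt (2 * Real.pi))⁻¹)
  refine h2.congr (Filter.Eventually.of_forall fun x => ?_)
  simp only
  rw [pdf_eq, Real.rpow_natCast]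
  ring

lemma integrable_pow_gauss (n : ℕ) : Integrable (fun x : ℝ => x ^ n) (gaussianReal 0 1) := by
  rw [gaussianReal_of_var_ne_zero 0 one_ne_zero]
  unfold gaussianPDF
  rw [integrable_withDensity_iff_integrable_smul₀']
  · refine (integrable_pow_pdf n).congr (Filter.Eventually.of_forall fun x => ?_)
    simp only
    rw [ENNReal.toReal_ofReal (gaussianPDFReal_nonneg _ _ _), smul_eq_mul, mul_comm]
  · exact (measurable_gaussianPDFReal 0 1).ennreal_ofReal.aemeasurable
  · exact Filter.Eventually.of_forall fun x => ENNReal.ofReal_lt_top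

/-- real moments -/
noncomputable def rm (n : ℕ) : ℝ := ∫ x : ℝ, x ^ n ∂(gaussianReal 0 1)

lemma rm_succ (n : ℕ) : rm (n + 1) = n * rm (n - 1) := by
  unfold rm
  rw [integral_gaussianReal_eq_integral_smul one_ne_zero,
    integral_gaussianReal_eq_integral_smul one_ne_zero]
  have hcast : ∀ x : ℝ, gaussianPDFReal 0 1 x • x ^ (n + 1)
      = x ^ n * (x * gaussianPDFReal 0 1 x) := fun x => by
    rw [smul_eq_mul]; ring
  simp only [hcast]
  have hu : ∀ x ∈ tsupport (fun y => -gaussianPDFReal 0 1 y),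
      HasDerivAt (fun y : ℝ => y ^ n) ((n : ℝ) * x ^ (n - 1)) x := fun x _ => hasDerivAt_pow n x
  have hv : ∀ x ∈ tsupport (fun y : ℝ => y ^ n),
      HasDerivAt (fun y => -gaussianPDFReal 0 1 y) (x * gaussianPDFReal 0 1 x) x :=
    fun x _ => hasDerivAt_pdf x
  have key := integral_mul_deriv_eq_deriv_mul_of_integrable (u := fun y : ℝ => y ^ n)
    (v := fun y => -gaussianPDFReal 0 1 y) (u' := fun x => (n : ℝ) * x ^ (n - 1))
    (v' := fun x => x * gaussianPDFReal 0 1 x) hu hv
    (by
      refine (integrable_pow_pdf (n + 1)).congr (Filter.Eventually.of_forall fun x => ?_)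
      simp only [Pi.mul_apply]
      ring)
    (by
      refine ((integrable_pow_pdf (n - 1)).const_mul (-(n : ℝ))).congr
        (Filter.Eventually.of_forall fun x => ?_)
      simp only [Pi.mul_apply]
      ring)
    (by
      refine (integrable_pow_pdf n).neg.congr (Filter.Eventually.of_forall fun x => ?_)
      simp only [Pi.mul_apply, Pi.neg_apply]
      ring)
  rw [key, ← integral_neg, ← integral_const_mul]
  refine integral_congr_ae (Filter.Eventually.of_forall fun x => ?_)
  simp only [smul_eq_mul]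
  ring

/-- complex moments -/
noncomputable def gm (n : ℕ) : ℂ := ∫ x : ℝ, (x : ℂ) ^ n ∂(gaussianReal 0 1)

lemma gm_eq (n : ℕ) : gm n = (rm n : ℂ) := by
  unfold gm rm
  rw [← integral_complex_ofReal]
  refine integral_congr_ae (Filter.Eventually.of_forall fun x => ?_)
  push_cast
  rfl

lemma gm_succ (n : ℕ) : gm (n + 1) = n * gm (n - 1) := by
  rw [gm_eq, gm_eq, rm_succ]
  push_cast
  ring

lemma integrable_cpow_gauss (n : ℕ) :
    Integrable (fun x : ℝ => (x : ℂ) ^ n) (gaussianReal 0 1) := by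
  have h := (integrable_pow_gauss n).ofReal (𝕜 := ℂ)
  refine h.congr (Filter.Eventually.of_forall fun x => ?_)
  push_cast
  rfl

variable {ι : Type} [Fintype ι]

/-- evaluation of a complex polynomial at a real point -/
noncomputable def ev (P : MvPolynomial ι ℂ) (y : EuclideanSpace ℝ ι) : ℂ :=
  MvPolynomial.eval (fun i => ((y i : ℝ) : ℂ)) P

lemma integral_std {E : Type*} [NormedAddCommGroup E] [NormedSpace ℝ E]
    (f : EuclideanSpace ℝ ι → E) :
    ∫ y, f y ∂stdGaussian (EuclideanSpace ℝ ι)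
      = ∫ x : ι → ℝ, f (WithLp.toLp 2 x) ∂(Measure.pi fun _ : ι => gaussianReal 0 1) := by
  rw [← map_pi_eq_stdGaussian]
  exact integral_map_equiv (MeasurableEquiv.toLp 2 (ι → ℝ)) f

lemma integrable_std {E : Type*} [NormedAddCommGroup E]
    (f : EuclideanSpace ℝ ι → E) :
    Integrable f (stdGaussian (EuclideanSpace ℝ ι)) ↔
      Integrable (fun x : ι → ℝ => f (WithLp.toLp 2 x))
        (Measure.pi fun _ : ι => gaussianReal 0 1) := by
  rw [← map_pi_eq_stdGaussian]
  exact integrable_map_equiv (MeasurableEquiv.toLp 2 (ι → ℝ)) f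

lemma ev_monomial (s : ι →₀ ℕ) (c : ℂ) (y : EuclideanSpace ℝ ι) :
    ev (MvPolynomial.monomial s c) y = c * ∏ i, ((y i : ℝ) : ℂ) ^ s i := by
  unfold ev
  rw [MvPolynomial.eval_monomial, Finsupp.prod_fintype]
  intro i
  exact pow_zero _

lemma integrable_ev (P : MvPolynomial ι ℂ) :
    Integrable (fun y => ev P y) (stdGaussian (EuclideanSpace ℝ ι)) := by
  induction P using MvPolynomial.induction_on' with
  | monomial s c =>
    rw [integrable_std]
    have : ∀ x : ι → ℝ, ev (MvPolynomial.monomial s c) (WithLp.toLp 2 x)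
        = c * ∏ i, ((x i : ℝ) : ℂ) ^ s i := fun x => by rw [ev_monomial]
    simp only [this]
    exact (Integrable.fintype_prod (f := fun (i : ι) (x : ℝ) => (x : ℂ) ^ s i)
      (fun i => integrable_cpow_gauss (s i))).const_mul c
  | add p q hp hq =>
    have : ∀ y, ev (p + q) y = ev p y + ev q y := fun y => by unfold ev; rw [map_add]
    simp only [this]
    exact hp.add hq

/-- Gaussian expectation of a polynomial -/
noncomputable def EE (P : MvPolynomial ι ℂ) : ℂ := ∫ y, ev P y ∂stdGaussian (EuclideanSpace ℝ ι)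

lemma EE_add (p q : MvPolynomial ι ℂ) : EE (p + q) = EE p + EE q := by
  unfold EE
  have : ∀ y, ev (p + q) y = ev p y + ev q y := fun y => by unfold ev; rw [map_add]
  simp only [this]
  exact integral_add (integrable_ev p) (integrable_ev q)

lemma EE_monomial (s : ι →₀ ℕ) (c : ℂ) :
    EE (MvPolynomial.monomial s c) = c * ∏ i, gm (s i) := by
  unfold EE
  rw [integral_std]
  have : ∀ x : ι → ℝ, ev (MvPolynomial.monomial s c) (WithLp.toLp 2 x)
        = c * ∏ i, ((x i : ℝ) : ℂ) ^ s i := fun x => by rw [ev_monomial]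
  simp only [this]
  rw [integral_const_mul]
  congr 1
  exact integral_fintype_prod_eq_prod (fun (i : ι) (x : ℝ) => (x : ℂ) ^ s i)

lemma EE_C (c : ℂ) : EE (MvPolynomial.C c : MvPolynomial ι ℂ) = c := by
  unfold EE ev
  simp

/-- Gaussian integration by parts. -/
lemma stein (i : ι) (P : MvPolynomial ι ℂ) :
    EE (MvPolynomial.X i * P) = EE (MvPolynomial.pderiv i P) := by
  classical
  induction P using MvPolynomial.induction_on' with
  | monomial s c =>
    rw [MvPolynomial.pderiv_monomial, EE_monomial, MvPolynomial.X, MvPolynomial.monomial_mul,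
      EE_monomial, one_mul]
    rw [← Finset.mul_prod_erase _ _ (Finset.mem_univ i),
      ← Finset.mul_prod_erase (Finset.univ) (fun j => gm ((s - Finsupp.single i 1 : ι →₀ ℕ) j))
        (Finset.mem_univ i)]
    have h1 : gm ((Finsupp.single i 1 + s : ι →₀ ℕ) i)
        = (s i : ℂ) * gm ((s - Finsupp.single i 1 : ι →₀ ℕ) i) := by
      rw [Finsupp.add_apply, Finsupp.tsub_apply, Finsupp.single_eq_same, add_comm, gm_succ]
    have h2 : ∏ j ∈ Finset.univ.erase i, gm ((Finsupp.single i 1 + s : ι →₀ ℕ) j)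
        = ∏ j ∈ Finset.univ.erase i, gm ((s - Finsupp.single i 1 : ι →₀ ℕ) j) := by
      refine Finset.prod_congr rfl fun j hj => ?_
      have hne : i ≠ j := (Finset.ne_of_mem_erase hj).symm
      rw [Finsupp.add_apply, Finsupp.tsub_apply, Finsupp.single_eq_of_ne hne.symm, zero_add,
        tsub_zero]
    rw [h1, h2]
    ring
  | add p q hp hq =>
    rw [mul_add, EE_add, map_add, EE_add, hp, hq]

end Pool.Agent.Helper61_Pauli
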